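import Pool.Agent.Lib_helper37.MosaicProof

set_option autoImplicit false

namespace Pool.Agent.Results.MP_9b4fc7_gt.CornerTileNumber

open Pool.Agent.Lib_helper37.Mosaic

/-- For every knot `K`, the corner connection tile number of `K` is at most the traditional
tile number of `K`. -/
theorem result : ∀ K : Set R3, IsKnot K → cornerTileNumber K ≤ tradTileNumber K :=
  cornerTileNumber_le

end Pool.Agent.Results.MP_9b4fc7_gt.CornerTileNumber
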